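import Pool.Agent.TH766.HP.Defs

/-!
# Generic points of a projective family over `ℚ(x)`
-/

set_option autoImplicit false

namespace Pool.Agent.TH146.GEN

open Polynomial Pool.Agent.TH766.HP

/-- the function field -/
abbrev K : Type := FractionRing ℚ[X]

theorem inj : Function.Injective (algebraMap ℚ[X] K) := IsFractionRing.injective ℚ[X] K

instance : CharZero K := charZero_of_injective_algebraMap inj

/-- clearing denominators -/
theorem clear (p : K[X]) :
    ∃ (q : ℚ[X][X]) (d : ℚ[X]), d ≠ 0 ∧ q.map (algebraMap ℚ[X] K) = C (algebraMap ℚ[X] K d) * p := by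
  obtain ⟨b, hb, h⟩ := IsLocalization.integerNormalization_spec (nonZeroDivisors ℚ[X]) p
  refine ⟨IsLocalization.integerNormalization (nonZeroDivisors ℚ[X]) p, b,
    nonZeroDivisors.ne_zero hb, ?_⟩
  rw [h, ← Polynomial.smul_eq_C_mul, algebraMap_smul]

/-- the separable polynomial -/
theorem sep_of_irreducible {g0 : K[X]} (h0 : Irreducible g0) {g : ℚ[X][X]} {c : ℚ[X]}
    (hc : c ≠ 0) (hg : g.map (algebraMap ℚ[X] K) = C (algebraMap ℚ[X] K c) * g0) : Sep g := by
  have hc' : algebraMap ℚ[X] K c ≠ 0 := by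
    rw [Ne, map_eq_zero_iff _ inj]; exact hc
  refine ⟨?_, ?_⟩
  · have h1 : (g.map (algebraMap ℚ[X] K)).natDegree = g0.natDegree := by
      rw [hg, Polynomial.natDegree_C_mul hc']
    rw [Polynomial.natDegree_map_eq_of_injective inj] at h1
    rw [h1]
    exact h0.natDegree_pos
  · obtain ⟨a0, b0, hab⟩ := h0.separable
    obtain ⟨a, da, hda, ha⟩ := clear a0
    obtain ⟨b, db, hdb, hb⟩ := clear b0
    refine ⟨C db * a, C da * b, da * db * c, mul_ne_zero (mul_ne_zero hda hdb) hc, ?_⟩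
    apply Polynomial.map_injective _ inj
    simp only [Polynomial.map_add, Polynomial.map_mul, ← Polynomial.derivative_map, hg, ha, hb,
      Polynomial.map_C, Polynomial.derivative_C_mul, map_mul]
    have : C ((algebraMap ℚ[X] K) db) * (C ((algebraMap ℚ[X] K) da) * a0) *
        (C ((algebraMap ℚ[X] K) c) * g0) + C ((algebraMap ℚ[X] K) da) *
        (C ((algebraMap ℚ[X] K) db) * b0) * (C ((algebraMap ℚ[X] K) c) * derivative g0) =
        C ((algebraMap ℚ[X] K) da) * C ((algebraMap ℚ[X] K) db) * C ((algebraMap ℚ[X] K) c) *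
          (a0 * g0 + b0 * derivative g0) := by ring
    rw [this, hab, mul_one]

/-- homogeneous polynomials -/
theorem eval₂_smul {R S : Type*} [CommRing R] [CommRing S] {n d : ℕ} (f : R →+* S)
    {F : MvPolynomial (Fin n) R} (hF : F.IsHomogeneous d) (c : S) (y : Fin n → S) :
    MvPolynomial.eval₂ f (fun l => c * y l) F = c ^ d * MvPolynomial.eval₂ f y F := by
  rw [MvPolynomial.eval₂_eq', MvPolynomial.eval₂_eq', Finset.mul_sum]
  refine Finset.sum_congr rfl fun m hm => ?_
  have h1 : ∑ l, m l = d := by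
    have := hF (MvPolynomial.mem_support_iff.1 hm)
    rw [← this, Finsupp.weight_apply, Finsupp.sum_fintype]
    · simp
    · simp
  simp only [mul_pow, Finset.prod_mul_distrib, Finset.prod_pow_eq_pow_sum, h1]
  ring

/-- a polynomial vanishing at the generic point of the curve is a multiple of `g` up to a
denominator -/
theorem van {g0 : K[X]} {g : ℚ[X][X]} {c : ℚ[X]}
    (hc : c ≠ 0) (hg : g.map (algebraMap ℚ[X] K) = C (algebraMap ℚ[X] K c) * g0)
    (P : ℚ[X][X]) (hP : g0 ∣ P.map (algebraMap ℚ[X] K)) :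
    ∃ (e : ℚ[X]) (Q : ℚ[X][X]), e ≠ 0 ∧ C e * P = g * Q := by
  obtain ⟨q, hq⟩ := hP
  obtain ⟨Q, d, hd, hQ⟩ := clear q
  refine ⟨d * c, Q, mul_ne_zero hd hc, ?_⟩
  apply Polynomial.map_injective _ inj
  simp only [Polynomial.map_mul, Polynomial.map_C, map_mul, hq, hg, hQ]
  ring

theorem pos_case {n r : ℕ} (F : Fin r → MvPolynomial (Fin n) ℚ[X]) (hF : Homog F)
    {L : Type} [Field L] [Algebra K L] [FiniteDimensional K L] (y : Fin n → L) (i : Fin n)
    (hi : y i = 1)
    (hy : ∀ j, MvPolynomial.eval₂ ((algebraMap K L).comp (algebraMap ℚ[X] K)) y (F j) = 0) :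
    ∃ (g : ℚ[X][X]) (E : ℚ[X]), Sep g ∧ E ≠ 0 ∧ ∀ (k : Type) [Field k] [Algebra ℚ k] (x t : k),
      aeval x E ≠ 0 → (g.map ((aeval x : ℚ[X] →ₐ[ℚ] k) : ℚ[X] →+* k)).eval t = 0 →
        HasPoint k F x := by
  classical
  let pb := Field.powerBasisOfFiniteOfSeparable K L
  set θ : L := pb.gen with hθ
  have hR : ∀ l, ∃ R : K[X], y l = aeval θ R := fun l => pb.exists_eq_aeval' (y l)
  choose R hR using hR
  choose A' d hd hA' using fun l => clear (R l)
  let D0 : ℚ[X] := ∏ l, d l
  have hD0 : D0 ≠ 0 := Finset.prod_ne_zero_iff.2 fun l _ => hd l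
  let A : Fin n → ℚ[X][X] := fun l => C (∏ m ∈ Finset.univ.erase l, d m) * A' l
  have hA : ∀ l, (A l).map (algebraMap ℚ[X] K) = C (algebraMap ℚ[X] K D0) * R l := by
    intro l
    simp only [A, D0, Polynomial.map_mul, Polynomial.map_C, hA']
    rw [← Finset.mul_prod_erase Finset.univ d (Finset.mem_univ l), map_mul, map_mul]
    ring
  set g0 : K[X] := minpoly K θ with hg0
  have hint : IsIntegral K θ := IsIntegral.of_finite K θ
  have hirr : Irreducible g0 := minpoly.irreducible hint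
  obtain ⟨g, c, hc, hg⟩ := clear g0
  -- the evaluation at the generic point
  let ψ : ℚ[X][X] →+* L :=
    ((aeval θ : K[X] →ₐ[K] L) : K[X] →+* L).comp (Polynomial.mapRingHom (algebraMap ℚ[X] K))
  have hψ : ∀ P : ℚ[X][X], ψ P = 0 → ∃ (e : ℚ[X]) (Q : ℚ[X][X]), e ≠ 0 ∧ C e * P = g * Q := by
    intro P hP
    exact van hc hg P (minpoly.dvd K θ hP)
  have hψA : ∀ l, ψ (A l) = (algebraMap K L (algebraMap ℚ[X] K D0)) * y l := by
    intro l
    change aeval θ ((A l).map (algebraMap ℚ[X] K)) = _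
    rw [hA, map_mul, aeval_C, hR]
  have hψC : ψ.comp C = (algebraMap K L).comp (algebraMap ℚ[X] K) := by
    ext q
    · change aeval θ ((C (C q)).map (algebraMap ℚ[X] K)) = _
      rw [Polynomial.map_C, aeval_C]
      rfl
    · change aeval θ ((C X).map (algebraMap ℚ[X] K)) = _
      rw [Polynomial.map_C, aeval_C]
      rfl
  have h1 : ∀ j, ∃ (e : ℚ[X]) (Q : ℚ[X][X]), e ≠ 0 ∧
      C e * (MvPolynomial.eval₂ (C : ℚ[X] →+* ℚ[X][X]) A (F j)) = g * Q := by
    intro j
    apply hψ
    rw [MvPolynomial.hom_eval₂, hψC]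
    obtain ⟨dj, hdj⟩ := hF j
    have : (fun l => ψ (A l)) = fun l => (algebraMap K L (algebraMap ℚ[X] K D0)) * y l :=
      funext hψA
    rw [this, eval₂_smul _ hdj, hy, mul_zero]
  choose e Q he hQ using h1
  obtain ⟨e', Q', he', hQ'⟩ : ∃ (e : ℚ[X]) (Q : ℚ[X][X]), e ≠ 0 ∧
      C e * (A i - C D0) = g * Q := by
    apply hψ
    rw [map_sub, hψA, hi, mul_one]
    have : ψ (C D0) = (ψ.comp C) D0 := rfl
    rw [this, hψC]
    simp
  refine ⟨g, D0 * e' * ∏ j, e j, sep_of_irreducible hirr hc hg,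
    mul_ne_zero (mul_ne_zero hD0 he') (Finset.prod_ne_zero_iff.2 fun j _ => he j), ?_⟩
  intro k _ _ x t hE hgt
  rw [map_mul, map_mul] at hE
  have hE1 : aeval x D0 ≠ 0 := left_ne_zero_of_mul (left_ne_zero_of_mul hE)
  have hE2 : aeval x e' ≠ 0 := right_ne_zero_of_mul (left_ne_zero_of_mul hE)
  have hE3 : ∀ j, aeval x (e j) ≠ 0 := by
    intro j
    have h2 := right_ne_zero_of_mul hE
    rw [map_prod] at h2
    exact Finset.prod_ne_zero_iff.1 h2 j (Finset.mem_univ j)
  let φ : ℚ[X][X] →+* k := Polynomial.eval₂RingHom ((aeval x : ℚ[X] →ₐ[ℚ] k) : ℚ[X] →+* k) t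
  have hφC : ∀ q : ℚ[X], φ (C q) = aeval x q := by
    intro q
    simp [φ]
  have hφg : φ g = 0 := by
    rw [Polynomial.eval_map] at hgt
    exact hgt
  have key : ∀ (e : ℚ[X]) (P Q : ℚ[X][X]), aeval x e ≠ 0 → C e * P = g * Q → φ P = 0 := by
    intro e P Q he h
    have := congrArg φ h
    rw [map_mul, map_mul, hφg, zero_mul, hφC] at this
    exact (mul_eq_zero.1 this).resolve_left he
  refine ⟨fun l => φ (A l), ?_, ?_⟩
  · intro h0
    have h2 := key e' _ _ hE2 hQ'
    rw [map_sub, hφC] at h2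
    have h3 : φ (A i) = 0 := congrFun h0 i
    rw [h3, zero_sub, neg_eq_zero] at h2
    exact hE1 h2
  · intro j
    have h2 := key (e j) _ _ (hE3 j) (hQ j)
    rw [MvPolynomial.hom_eval₂] at h2
    have h3 : φ.comp C = ((aeval x : ℚ[X] →ₐ[ℚ] k) : ℚ[X] →+* k) := by
      refine RingHom.ext fun q => ?_
      exact hφC q
    rw [h3] at h2
    exact h2

/-- the ideal of the affine piece `y_i = 1` -/
noncomputable def aff {n r : ℕ} (F : Fin r → MvPolynomial (Fin n) ℚ[X]) (i : Fin n) :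
    Ideal (MvPolynomial (Fin n) ℚ[X]) :=
  Ideal.span (Set.range F ∪ {MvPolynomial.X i - 1})

theorem neg_case {n r : ℕ} (F : Fin r → MvPolynomial (Fin n) ℚ[X]) (hF : Homog F)
    (D : Fin n → ℚ[X]) (hD : ∀ i, D i ≠ 0)
    (h : ∀ i, (MvPolynomial.C (D i) : MvPolynomial (Fin n) ℚ[X]) ∈ aff F i) :
    {x : ℚ | HasPoint ℚ F x}.Finite := by
  classical
  have h0 : (∏ i, D i) ≠ 0 := Finset.prod_ne_zero_iff.2 fun i _ => hD i
  refine Set.Finite.subset ((∏ i, D i).rootSet_finite ℚ) ?_
  rintro x ⟨y, hy0, hy⟩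
  rw [Polynomial.mem_rootSet]
  refine ⟨h0, ?_⟩
  obtain ⟨i, hi⟩ : ∃ i, y i ≠ 0 := by
    by_contra hcon
    push Not at hcon
    exact hy0 (funext hcon)
  let f : ℚ[X] →+* ℚ := ((aeval x : ℚ[X] →ₐ[ℚ] ℚ) : ℚ[X] →+* ℚ)
  let φ : MvPolynomial (Fin n) ℚ[X] →+* ℚ := MvPolynomial.eval₂Hom f (fun l => (y i)⁻¹ * y l)
  have hφ : aff F i ≤ RingHom.ker φ := by
    rw [aff, Ideal.span_le]
    rintro P (⟨j, rfl⟩ | hP)
    · obtain ⟨d, hd⟩ := hF j
      change MvPolynomial.eval₂ f (fun l => (y i)⁻¹ * y l) (F j) = 0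
      rw [eval₂_smul f hd]
      have := hy j
      rw [show MvPolynomial.eval₂ f y (F j) = 0 from this, mul_zero]
    · rw [Set.mem_singleton_iff] at hP
      subst hP
      change φ (MvPolynomial.X i - 1) = 0
      simp [φ, hi]
  have h1 : φ (MvPolynomial.C (D i)) = 0 := hφ (h i)
  have h2 : aeval x (D i) = 0 := by
    have h3 : φ (MvPolynomial.C (D i)) = f (D i) := MvPolynomial.eval₂Hom_C _ _ _
    rw [h3] at h1
    exact h1
  rw [map_prod]
  exact Finset.prod_eq_zero (Finset.mem_univ i) h2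

attribute [local instance] MvPolynomial.algebraMvPolynomial in
theorem gen : Pool.Agent.TH766.HP.S_GEN := by
  classical
  intro n r F hF
  by_cases hcase : ∀ i, ∃ D : ℚ[X], D ≠ 0 ∧
      (MvPolynomial.C D : MvPolynomial (Fin n) ℚ[X]) ∈ aff F i
  · choose D hD hm using hcase
    exact Or.inl (neg_case F hF D hD hm)
  · right
    push Not at hcase
    obtain ⟨i, hi⟩ := hcase
    let f : MvPolynomial (Fin n) ℚ[X] →+* MvPolynomial (Fin n) K :=
      MvPolynomial.map (algebraMap ℚ[X] K)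
    have hne : Ideal.map (algebraMap (MvPolynomial (Fin n) ℚ[X]) (MvPolynomial (Fin n) K))
        (aff F i) ≠ ⊤ := by
      rw [IsLocalization.map_algebraMap_ne_top_iff_disjoint
        ((nonZeroDivisors ℚ[X]).map (MvPolynomial.C (σ := Fin n)))]
      rw [Set.disjoint_left]
      rintro _ ⟨D, hD, rfl⟩ hmem
      exact hi D (nonZeroDivisors.ne_zero hD) hmem
    obtain ⟨m, hm, hle⟩ := Ideal.exists_le_maximal _ hne
    let : Field (MvPolynomial (Fin n) K ⧸ m) := Ideal.Quotient.field m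
    have : FiniteDimensional K (MvPolynomial (Fin n) K ⧸ m) :=
      finite_of_finite_type_of_isJacobsonRing K _
    have hz : ∀ P ∈ aff F i, Ideal.Quotient.mk m (f P) = 0 := by
      intro P hP
      rw [Ideal.Quotient.eq_zero_iff_mem]
      exact hle (Ideal.mem_map_of_mem _ hP)
    refine pos_case F hF (L := MvPolynomial (Fin n) K ⧸ m)
      (fun l => Ideal.Quotient.mk m (MvPolynomial.X l)) i ?_ ?_
    · have := hz (MvPolynomial.X i - 1) (Ideal.subset_span (Or.inr rfl))
      simp only [f, map_sub, map_one, MvPolynomial.map_X] at this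
      exact sub_eq_zero.1 this
    · intro j
      have := hz (F j) (Ideal.subset_span (Or.inl ⟨j, rfl⟩))
      rw [← this]
      have h2 : ∀ P : MvPolynomial (Fin n) ℚ[X], MvPolynomial.eval₂
          ((algebraMap K (MvPolynomial (Fin n) K ⧸ m)).comp (algebraMap ℚ[X] K))
          (fun l => Ideal.Quotient.mk m (MvPolynomial.X l)) P = Ideal.Quotient.mk m (f P) := by
        intro P
        have h3 : (MvPolynomial.eval₂Hom
            ((algebraMap K (MvPolynomial (Fin n) K ⧸ m)).comp (algebraMap ℚ[X] K))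
            (fun l => Ideal.Quotient.mk m (MvPolynomial.X l))) = (Ideal.Quotient.mk m).comp f := by
          apply MvPolynomial.ringHom_ext
          · intro q
            simp only [MvPolynomial.eval₂Hom_C, RingHom.comp_apply, f, MvPolynomial.map_C]
            rfl
          · intro l
            simp only [MvPolynomial.eval₂Hom_X', RingHom.comp_apply, f, MvPolynomial.map_X]
        exact congrArg (fun h => h P) h3
      exact h2 (F j)

end Pool.Agent.TH146.GEN
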